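import Pool.Agent.N344.ET.Core

/-!
# Extensions with kernel `G ≀ A_n` (helper344)
-/

set_option autoImplicit false

namespace Pool.Agent.N344.ET

open Pool.Agent.H391R2 Pool.Agent.H391R2.T4 Pool.Agent.TH59.WX Pool.Agent.Y793

section asm

variable {G : Type} [Group G] {n : ℕ} {X Γ : Type} [Group X] [Group Γ]

/-- the group `M_i` -/
def Mz (G : Type) [Group G] (n : ℕ) (i : Fin n) : Subgroup (AWr G n) where
  carrier := {z | z.1.right i = i ∧ z.1.left i = 1}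
  one_mem' := ⟨rfl, rfl⟩
  mul_mem' := by
    rintro z w ⟨h1, h2⟩ ⟨h3, h4⟩
    refine ⟨?_, ?_⟩
    · change z.1.right (w.1.right i) = i
      rw [h3, h1]
    · change z.1.left i * w.1.left (z.1.right⁻¹ i) = 1
      have h5 : z.1.right⁻¹ i = i := by rw [Equiv.Perm.inv_eq_iff_eq, h1]
      rw [h5, h2, h4, one_mul]
  inv_mem' := by
    rintro z ⟨h1, h2⟩
    have h5 : z.1.right⁻¹ i = i := by rw [Equiv.Perm.inv_eq_iff_eq, h1]
    refine ⟨h5, ?_⟩
    change (z.1⁻¹).left i = 1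
    rw [wr_inv_left, h1, h2, inv_one]

theorem mem_Mz (i : Fin n) (z : AWr G n) : z ∈ Mz G n i ↔ (z.1.right i = i ∧ z.1.left i = 1) :=
  Iff.rfl

variable (p : X →* Γ) (ι : AWr G n ≃* p.ker) (d : X →* Equiv.Perm (Fin n)) (i₀ : Fin n)

/-- the stabilizer -/
def X0 : Subgroup X := (MulAction.stabilizer (Equiv.Perm (Fin n)) i₀).comap d

theorem mem_X0 (x : X) : x ∈ X0 d i₀ ↔ d x i₀ = i₀ := Iff.rfl

/-- the map to `X` -/
def io : AWr G n →* X := p.ker.subtype.comp ι.toMonoidHom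

theorem io_inj : Function.Injective (io p ι) := fun z w h => by
  have h1 : ι z = ι w := Subtype.ext h
  exact ι.injective h1

theorem p_io (z : AWr G n) : p (io p ι z) = 1 := (ι z).2

theorem io_surj (x : X) (hx : p x = 1) : ∃ z, io p ι z = x := by
  obtain ⟨z, hz⟩ := ι.surjective ⟨x, hx⟩
  exact ⟨z, congrArg Subtype.val hz⟩

/-- the group `M_0` -/
def M0 : Subgroup (X0 d i₀) := ((Mz G n i₀).map (io p ι)).subgroupOf (X0 d i₀)

theorem mem_M0 (x : X0 d i₀) : x ∈ M0 p ι d i₀ ↔ ∃ z ∈ Mz G n i₀, io p ι z = x := Iff.rfl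

/-- compatibility -/
structure Cm : Prop where
  hd : ∀ w : AWr G n, d (io p ι w) = w.1.right
  hc : ∀ (x : X) (w : AWr G n), ∃ w' : AWr G n, io p ι w' = x * io p ι w * x⁻¹ ∧
    w'.1.right = d x * w.1.right * (d x)⁻¹ ∧
    ∀ i, w.1.right i = i → w.1.left i = 1 → w'.1.left (d x i) = 1

variable {p ι d}

theorem M0_normal (h : Cm p ι d) : (M0 p ι d i₀).Normal := by
  constructor
  rintro x hx g
  obtain ⟨z, ⟨hz1, hz2⟩, hz⟩ := (mem_M0 p ι d i₀ x).1 hx
  obtain ⟨w, hw, hw1, hw2⟩ := h.hc g.1 z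
  have hg : d g.1 i₀ = i₀ := g.2
  refine (mem_M0 p ι d i₀ _).2 ⟨w, ⟨?_, ?_⟩, ?_⟩
  · have h5 : (d g.1)⁻¹ i₀ = i₀ := by rw [Equiv.Perm.inv_eq_iff_eq, hg]
    rw [hw1, Equiv.Perm.mul_apply, Equiv.Perm.mul_apply, h5, hz1, hg]
  · have := hw2 i₀ hz1 hz2
    rwa [hg] at this
  · rw [hw, hz]
    rfl

theorem evn_left (σ τ : Equiv.Perm (Fin n)) (hσ : Equiv.Perm.sign σ = 1)
    (hτ : Equiv.Perm.sign τ = 1) (z : AWr G n) (i : Fin n) :
    ((evn σ hσ)⁻¹ * z * evn τ hτ : AWr G n).1.left i = z.1.left (σ i) := by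
  have h1 : ((evn σ hσ : AWr G n)⁻¹).1.left = 1 := by
    funext j
    change ((SemidirectProduct.inr σ : Wr G n)⁻¹).left j = 1
    rw [wr_inv_left]
    exact inv_one
  change (((evn σ hσ : AWr G n)⁻¹).1.left i * z.1.left ((((evn σ hσ : AWr G n)⁻¹).1.right)⁻¹ i)) * 1 = _
  rw [h1, mul_one]
  change 1 * z.1.left ((σ⁻¹)⁻¹ i) = _
  rw [one_mul, inv_inv]

theorem core [Finite G] (hn : 2 * (Nat.card G + 4) ≤ n) [Finite Γ]
    (hp : Function.Surjective p) (h : Cm p ι d) :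
    ∃ (B : Type) (_ : Group B) (_ : Finite B) (a : B →* Γ) (χ : Γ →* ℤˣ) (E : X →* Wr B n × Γ),
      Function.Surjective a ∧ Nonempty (a.ker ≃* G) ∧ Function.Injective E ∧
      (∀ z, z ∈ E.range ↔ ((∀ i, a (z.1.left i) = z.2) ∧ Equiv.Perm.sign z.1.right = χ z.2)) ∧
      ∀ x, (E x).2 = p x := by
  classical
  have h4 : 4 ≤ n := by omega
  let i₀ : Fin n := ⟨0, by omega⟩
  -- finiteness
  have hfX : Finite X := by
    have hfW : Finite (Wr G n) := Finite.of_injective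
      (fun z : Wr G n => ((z.left, z.right) : (Fin n → G) × Equiv.Perm (Fin n)))
      (fun z w hzw => SemidirectProduct.ext (congrArg Prod.fst hzw) (congrArg Prod.snd hzw))
    have hfN : Finite (AWr G n) := Finite.of_injective Subtype.val Subtype.val_injective
    have hfK : Finite p.ker := Finite.of_equiv _ ι.toEquiv
    refine Finite.of_injective (fun x : X => ((p x, (⟨(Function.surjInv hp (p x))⁻¹ * x, by
      rw [MonoidHom.mem_ker, map_mul, map_inv, Function.surjInv_eq hp (p x), inv_mul_cancel]⟩ : p.ker)) :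
        Γ × p.ker)) ?_
    intro x y hxy
    have h1 : p x = p y := congrArg Prod.fst hxy
    have h2 : (Function.surjInv hp (p x))⁻¹ * x = (Function.surjInv hp (p y))⁻¹ * y :=
      congrArg (fun z : Γ × p.ker => (z.2 : X)) hxy
    rw [h1] at h2
    exact mul_left_cancel h2
  have hnorm : (M0 p ι d i₀).Normal := M0_normal i₀ h
  let B : Type := X0 d i₀ ⧸ M0 p ι d i₀
  have hBfin : Finite B := Quotient.finite _
  let mk : X0 d i₀ →* B := QuotientGroup.mk' (M0 p ι d i₀)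
  have mk_eq : ∀ x y : X0 d i₀, mk x = mk y ↔ x⁻¹ * y ∈ M0 p ι d i₀ := fun x y =>
    QuotientGroup.eq
  have mk_one : ∀ x : X0 d i₀, mk x = 1 ↔ x ∈ M0 p ι d i₀ := fun x =>
    QuotientGroup.eq_one_iff x
  let a : B →* Γ := QuotientGroup.lift (M0 p ι d i₀) (p.comp (X0 d i₀).subtype) (by
    intro x hx
    obtain ⟨z, -, hz⟩ := (mem_M0 p ι d i₀ x).1 hx
    change p x.1 = 1
    rw [← hz]
    exact p_io p ι z)
  have ha : ∀ x : X0 d i₀, a (mk x) = p x.1 := fun x => rfl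
  have hsurj : Function.Surjective a := by
    intro γ
    obtain ⟨x, rfl⟩ := hp γ
    obtain ⟨σ, hσ, hσ2⟩ := exists_even h4 (d x i₀) i₀
    have hx : io p ι (evn σ hσ) * x ∈ X0 d i₀ := by
      rw [mem_X0, map_mul, h.hd]
      exact hσ2
    refine ⟨mk ⟨_, hx⟩, ?_⟩
    rw [ha]
    change p (io p ι (evn σ hσ) * x) = p x
    rw [map_mul, p_io, one_mul]
  -- the kernel of `a`
  have hsg : ∀ g : G, io p ι (sg i₀ g) ∈ X0 d i₀ := by
    intro g
    rw [mem_X0, h.hd]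
    rfl
  let κ : G →* B := mk.comp (MonoidHom.mk' (fun g => (⟨io p ι (sg i₀ g), hsg g⟩ : X0 d i₀))
    (fun g g' => Subtype.ext (by
      change io p ι (sg i₀ (g * g')) = io p ι (sg i₀ g) * io p ι (sg i₀ g')
      rw [sg_mul, map_mul])))
  have hκ : ∀ (z : AWr G n) (x : X0 d i₀), io p ι z = x.1 → mk x = κ (z.1.left i₀) := by
    intro z x hx
    have hz : z.1.right i₀ = i₀ := by
      have := x.2
      rwa [← hx, mem_X0, h.hd] at this
    have h5 : z.1.right⁻¹ i₀ = i₀ := by rw [Equiv.Perm.inv_eq_iff_eq, hz]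
    refine (mk_eq x ⟨_, hsg _⟩).2 ((mem_M0 p ι d i₀ _).2 ⟨z⁻¹ * sg i₀ (z.1.left i₀), ⟨h5, ?_⟩, ?_⟩)
    · change (z.1⁻¹).left i₀ * (sgl i₀ (z.1.left i₀)).left (((z.1⁻¹).right)⁻¹ i₀) = 1
      have h6 : ((z.1⁻¹).right)⁻¹ i₀ = i₀ := by
        rw [SemidirectProduct.inv_right, inv_inv, hz]
      rw [h6, wr_inv_left, hz, sgl_left_self, inv_mul_cancel]
    · rw [map_mul, map_inv, hx]
      rfl
  have hκa : ∀ g, a (κ g) = 1 := fun g => p_io p ι _
  have hκinj : Function.Injective κ := by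
    rw [injective_iff_map_eq_one]
    intro g hg
    obtain ⟨z, hz, hz2⟩ := (mem_M0 p ι d i₀ _).1 ((mk_one ⟨_, hsg g⟩).1 hg)
    have h6 : z = sg i₀ g := io_inj p ι hz2
    rw [h6] at hz
    have h7 : (sgl i₀ g).left i₀ = 1 := hz.2
    rwa [sgl_left_self] at h7
  have hκsurj : ∀ b : B, a b = 1 → ∃ g, κ g = b := by
    intro b hb
    obtain ⟨x, rfl⟩ := QuotientGroup.mk'_surjective (M0 p ι d i₀) b
    obtain ⟨z, hz⟩ := io_surj p ι x.1 hb
    exact ⟨z.1.left i₀, (hκ z x hz).symm⟩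
  have hker : Nonempty (a.ker ≃* G) := by
    let κ' : G →* a.ker := κ.codRestrict a.ker (fun g => hκa g)
    refine ⟨(MulEquiv.ofBijective κ' ⟨?_, ?_⟩).symm⟩
    · intro g g' hg
      exact hκinj (congrArg Subtype.val hg)
    · rintro ⟨b, hb⟩
      obtain ⟨g, hg⟩ := hκsurj b hb
      exact ⟨g, Subtype.ext hg⟩
  -- the character
  let s : X →* ℤˣ := Equiv.Perm.sign.comp d
  have hs : ∀ x, s x = Equiv.Perm.sign (d x) := fun x => rfl
  have hker2 : p.ker ≤ s.ker := by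
    intro x hx
    obtain ⟨w, hw⟩ := io_surj p ι x hx
    rw [MonoidHom.mem_ker, hs, ← hw, h.hd]
    exact w.2
  let χ : Γ →* ℤˣ := p.liftOfSurjective hp ⟨s, hker2⟩
  have hχ : ∀ x, χ (p x) = s x := fun x =>
    MonoidHom.liftOfRightInverse_comp_apply p _ (Function.rightInverse_surjInv hp) ⟨s, hker2⟩ x
  -- the homomorphism
  choose τ hτ1 hτ2 using fun i => exists_even h4 i₀ i
  let ν : Fin n → X := fun i => io p ι (evn (τ i) (hτ1 i))
  have hνp : ∀ i, p (ν i) = 1 := fun i => p_io p ι _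
  have hνd : ∀ i, d (ν i) i₀ = i := by
    intro i
    change d (io p ι _) i₀ = i
    rw [h.hd]
    exact hτ2 i
  have hmem : ∀ (x : X) (i j : Fin n), d x j = i → (ν i)⁻¹ * x * ν j ∈ X0 d i₀ := by
    intro x i j hij
    rw [mem_X0, map_mul, map_mul, map_inv, Equiv.Perm.mul_apply, Equiv.Perm.mul_apply, hνd, hij,
      Equiv.Perm.inv_eq_iff_eq, hνd]
  have hdi : ∀ (x : X) (i : Fin n), d x ((d x)⁻¹ i) = i := by
    intro x i
    simp
  let E₀ : X → Wr B n × Γ := fun x =>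
    (⟨fun i => mk ⟨(ν i)⁻¹ * x * ν ((d x)⁻¹ i), hmem x i _ (hdi x i)⟩, d x⟩, p x)
  let E : X →* Wr B n × Γ := MonoidHom.mk' E₀ (fun x y => by
    refine Prod.ext ?_ (map_mul p x y)
    refine SemidirectProduct.ext (funext fun i => ?_) (map_mul d x y)
    change mk ⟨(ν i)⁻¹ * (x * y) * ν ((d (x * y))⁻¹ i), _⟩ =
      mk ⟨(ν i)⁻¹ * x * ν ((d x)⁻¹ i), _⟩ *
        mk ⟨(ν ((d x)⁻¹ i))⁻¹ * y * ν ((d y)⁻¹ ((d x)⁻¹ i)), _⟩
    rw [← map_mul]
    congr 1
    apply Subtype.ext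
    change (ν i)⁻¹ * (x * y) * ν ((d (x * y))⁻¹ i) =
      ((ν i)⁻¹ * x * ν ((d x)⁻¹ i)) * ((ν ((d x)⁻¹ i))⁻¹ * y * ν ((d y)⁻¹ ((d x)⁻¹ i)))
    have e : (d (x * y))⁻¹ i = (d y)⁻¹ ((d x)⁻¹ i) := by
      rw [map_mul, mul_inv_rev]
      rfl
    rw [e]
    group)
  have hEl : ∀ x i, (E x).1.left i = mk ⟨(ν i)⁻¹ * x * ν ((d x)⁻¹ i), hmem x i _ (hdi x i)⟩ :=
    fun x i => rfl
  have hEr : ∀ x, (E x).1.right = d x := fun x => rfl
  have hE2 : ∀ x, (E x).2 = p x := fun x => rfl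
  have hEa : ∀ x i, a ((E x).1.left i) = p x := by
    intro x i
    rw [hEl, ha]
    change p ((ν i)⁻¹ * x * ν ((d x)⁻¹ i)) = p x
    rw [map_mul, map_mul, map_inv, hνp, hνp, inv_one, one_mul, mul_one]
  -- the components of the elements of the kernel
  have hEι : ∀ (z : AWr G n) (i : Fin n), (E (io p ι z)).1.left i = κ (z.1.left i) := by
    intro z i
    rw [hEl, hκ ((evn (τ i) (hτ1 i))⁻¹ * z * evn (τ ((d (io p ι z))⁻¹ i)) (hτ1 _)) _ (by
      rw [map_mul, map_mul, map_inv]), evn_left, hτ2]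
  refine ⟨B, inferInstance, hBfin, a, χ, E, hsurj, hker, ?_, ?_, hE2⟩
  · rw [injective_iff_map_eq_one]
    intro x hx
    have h1 : p x = 1 := congrArg Prod.snd hx
    have h2 : d x = 1 := congrArg (fun w : Wr B n × Γ => w.1.right) hx
    obtain ⟨z, rfl⟩ := io_surj p ι x h1
    have h3 : z = 1 := by
      refine aw_ext (fun i => ?_) ?_
      · have h5 : (E (io p ι z)).1.left i = 1 := congrArg (fun w : Wr B n × Γ => w.1.left i) hx
        rw [hEι] at h5
        exact hκinj (h5.trans (map_one κ).symm)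
      · rw [h.hd] at h2
        exact h2
    rw [h3, map_one]
  · intro z
    constructor
    · rintro ⟨x, rfl⟩
      refine ⟨fun i => hEa x i, ?_⟩
      rw [hEr, hE2, hχ, hs]
    · rintro ⟨hz1, hz2⟩
      obtain ⟨x₀, hx₀⟩ := hp z.2
      set w : Wr B n × Γ := (E x₀)⁻¹ * z with hw
      have hzw : E x₀ * w = z := by rw [hw, mul_inv_cancel_left]
      have w1 : ∀ i, a (w.1.left i) = 1 := by
        intro i
        change a (((E x₀).1⁻¹).left i * z.1.left ((((E x₀).1⁻¹).right)⁻¹ i)) = 1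
        rw [map_mul, wr_inv_left, map_inv, hEa, hz1, hx₀, inv_mul_cancel]
      have w2 : Equiv.Perm.sign w.1.right = 1 := by
        change Equiv.Perm.sign ((E x₀).1.right⁻¹ * z.1.right) = 1
        rw [map_mul, map_inv, hz2, hEr, ← hx₀, hχ, hs, inv_mul_cancel]
      have w3 : w.2 = 1 := by
        change (p x₀)⁻¹ * z.2 = 1
        rw [hx₀, inv_mul_cancel]
      choose g hg using fun i => hκsurj (w.1.left i) (w1 i)
      let y : AWr G n := ⟨⟨g, w.1.right⟩, w2⟩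
      have hy : E (io p ι y) = w := by
        refine Prod.ext ?_ ?_
        · refine SemidirectProduct.ext (funext fun i => ?_) ?_
          · rw [hEι, ← hg i]
          · rw [hEr, h.hd]
        · rw [hE2, p_io, w3]
      exact ⟨x₀ * io p ι y, by rw [map_mul, hy, hzw]⟩

/-- existence of the data -/
theorem exists_Cm [Finite G] (hG : NC G) (hn : 2 * (Nat.card G + 4) ≤ n) (p : X →* Γ)
    (ι : AWr G n ≃* p.ker) : ∃ d : X →* Equiv.Perm (Fin n), Cm p ι d := by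
  obtain ⟨P, hP1, hP2, hP3⟩ := exists_P (G := G) (n := n) hG hn
  let c : X →* MulAut (AWr G n) := (MulAut.congr ι.symm).toMonoidHom.comp MulAut.conjNormal
  have hc : ∀ w : AWr G n, c (ι w) = MulAut.conj w := by
    intro w
    apply MulEquiv.ext
    intro x
    change ι.symm (MulAut.conjNormal (ι w : X) (ι x)) = w * x * w⁻¹
    rw [MulEquiv.symm_apply_eq]
    apply Subtype.ext
    rw [MulAut.conjNormal_apply]
    simp only [map_mul, map_inv, Subgroup.coe_mul, Subgroup.coe_inv]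
  refine ⟨P.comp c, ⟨fun w => ?_, fun x w => ⟨c x w, ?_, ?_, ?_⟩⟩⟩
  · change P (c (ι w)) = _
    rw [hc, hP2]
  · change ((ι (ι.symm (MulAut.conjNormal x (ι w))) : p.ker) : X) = x * (ι w : X) * x⁻¹
    rw [MulEquiv.apply_symm_apply, MulAut.conjNormal_apply]
  · exact hP1 (c x) w
  · intro i h1 h2
    exact hP3 (c x) i w h1 h2

end asm

end Pool.Agent.N344.ET
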