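import Pool.Agent.N70.ET.Stm
import Pool.Agent.N344.ET.Asm

/-!
# The extensions by `G ≀ A_n`, `G` without nontrivial homomorphisms into its centre (helper344)
-/

set_option autoImplicit false

namespace Pool.Agent.N344.ET

open Pool.Agent.H391R2 Pool.Agent.H391R2.T4 Pool.Agent.TH59.WX Pool.Agent.Y793

/-- **The extensions by `G ≀ A_n` are twisted fibre powers.** -/
theorem t_autZ : Pool.Agent.N70.ET.St_autZ := by
  intro G _ _ hG n hn X Γ _ _ _ p hp ⟨ι'⟩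
  obtain ⟨d, hd⟩ := exists_Cm hG hn p ι'.symm
  obtain ⟨B, _, _, a, χ, E, h1, h2, h3, h4, h5⟩ := core hn hp hd
  have hmem : ∀ x, E x ∈ AltTw a χ n := fun x => Subgroup.mem_inf.2 ((h4 (E x)).1 ⟨x, rfl⟩)
  refine ⟨B, inferInstance, inferInstance, a, χ,
    MulEquiv.ofBijective (E.codRestrict _ hmem) ⟨?_, ?_⟩, h1, h2, fun x => h5 x⟩
  · intro x y hxy
    exact h3 (congrArg Subtype.val hxy)
  · rintro ⟨z, hz⟩
    obtain ⟨x, hx⟩ := (h4 z).2 (Subgroup.mem_inf.1 hz)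
    exact ⟨x, Subtype.ext hx⟩

end Pool.Agent.N344.ET
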