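import Pool.Agent.Y793.Stm
import Pool.Agent.TH59.WX.GT1
import Pool.Agent.H302R6.AutB

/-!
# Automorphisms of `G ≀ A_n`, `G` without nontrivial homomorphisms into its centre (helper344)

The first part repeats lemmas of `Pool.Agent.N891.EP.Aut`.
-/

set_option autoImplicit false

namespace Pool.Agent.N344.ET

open Pool.Agent.H391R2 Pool.Agent.H391R2.T4 Pool.Agent.TH59.WX Pool.Agent.Y793

/-- no nontrivial homomorphism into the centre -/
def NC (G : Type) [Group G] : Prop :=
  ∀ f : G →* G, (∀ g h : G, f g * h = h * f g) → ∀ g, f g = 1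

section gt

variable {G : Type} [Group G] {n : ℕ}

/-- The element `g` in the `i`-th factor of the base group. -/
def sg (i : Fin n) (g : G) : AWr G n := ⟨sgl i g, by
  change Equiv.Perm.sign (1 : Equiv.Perm (Fin n)) = 1
  exact map_one _⟩

/-- The even permutations. -/
def evn (σ : Equiv.Perm (Fin n)) (hσ : Equiv.Perm.sign σ = 1) : AWr G n :=
  ⟨SemidirectProduct.inr σ, hσ⟩

theorem sg_right (i : Fin n) (g : G) : (sg i g : AWr G n).1.right = 1 := rfl

theorem aw_ext {x y : AWr G n} (h1 : ∀ i, x.1.left i = y.1.left i) (h2 : x.1.right = y.1.right) :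
    x = y := Subtype.ext (wr_ext h1 h2)

theorem sg_mul (i : Fin n) (g h : G) : (sg i (g * h) : AWr G n) = sg i g * sg i h :=
  Subtype.ext (sgl_mul i g h)

theorem sg_inj {i : Fin n} {g h : G} (e : (sg i g : AWr G n) = sg i h) : g = h :=
  sgl_inj (congrArg Subtype.val e)

theorem sg_one (i : Fin n) : (sg i (1 : G) : AWr G n) = 1 := Subtype.ext (sgl_one i)

/-- An even permutation with a given value. -/
theorem exists_even (hn : 4 ≤ n) (i j : Fin n) :
    ∃ σ : Equiv.Perm (Fin n), Equiv.Perm.sign σ = 1 ∧ σ i = j := by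
  classical
  by_cases hij : i = j
  · exact ⟨1, map_one _, hij⟩
  · obtain ⟨m, hm⟩ : ∃ m : Fin n, m ∉ ({i, j} : Finset (Fin n)) := by
      by_contra hcon
      push Not at hcon
      have h6 : (Finset.univ : Finset (Fin n)) ⊆ {i, j} := fun m _ => hcon m
      have h7 := Finset.card_le_card h6
      rw [Finset.card_univ, Fintype.card_fin] at h7
      have h8 := Finset.card_le_two (a := i) (b := j)
      omega
    simp only [Finset.mem_insert, Finset.mem_singleton, not_or] at hm
    refine ⟨Equiv.swap i j * Equiv.swap j m, ?_, ?_⟩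
    · rw [map_mul, Equiv.Perm.sign_swap hij, Equiv.Perm.sign_swap (Ne.symm hm.2)]
      rfl
    · rw [Equiv.Perm.mul_apply, Equiv.swap_apply_of_ne_of_ne hij (Ne.symm hm.1),
        Equiv.swap_apply_left]

theorem exists_new (hn : 4 ≤ n) (i j k : Fin n) : ∃ m : Fin n, m ≠ i ∧ m ≠ j ∧ m ≠ k := by
  classical
  obtain ⟨m, hm⟩ : ∃ m : Fin n, m ∉ ({i, j, k} : Finset (Fin n)) := by
    by_contra hcon
    push Not at hcon
    have h6 : (Finset.univ : Finset (Fin n)) ⊆ {i, j, k} := fun m _ => hcon m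
    have h7 := Finset.card_le_card h6
    rw [Finset.card_univ, Fintype.card_fin] at h7
    have h8 := Finset.card_le_three (a := i) (b := j) (c := k)
    omega
  simp only [Finset.mem_insert, Finset.mem_singleton, not_or] at hm
  exact ⟨m, hm⟩

/-- The projection to the alternating group. -/
def pr (G : Type) [Group G] (n : ℕ) : AWr G n →* alternatingGroup (Fin n) :=
  ((SemidirectProduct.rightHom : Wr G n →* Equiv.Perm (Fin n)).comp (AWr G n).subtype).codRestrict
    (alternatingGroup (Fin n)) (fun x => x.2)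

theorem pr_surj : Function.Surjective (pr G n) := fun σ => ⟨evn σ.1 σ.2, rfl⟩

theorem mem_ker_pr (x : AWr G n) : x ∈ (pr G n).ker ↔ x.1.right = 1 := by
  rw [MonoidHom.mem_ker]
  exact ⟨fun h => congrArg Subtype.val h, fun h => Subtype.ext h⟩

/-- Normal subgroups of the order of the base group are equal to it. -/
theorem base_le' [Finite G] (hn : 2 * (Nat.card G + 4) ≤ n) (M : Subgroup (AWr G n))
    (hM : M.Normal) (hc : Nat.card M = Nat.card G ^ n) (x : AWr G n) (hx : x ∈ M) :
    x.1.right = 1 := by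
  classical
  have h5 : 5 ≤ Nat.card (Fin n) := by
    rw [Nat.card_eq_fintype_card, Fintype.card_fin]
    omega
  have hnn : Nontrivial (Fin n) := Fin.nontrivial_iff_two_le.2 (by omega)
  have hnorm : (M.map (pr G n)).Normal := hM.map _ pr_surj
  rcases alternatingGroup.normal_subgroup_eq_bot_or_eq_top h5 (N := M.map (pr G n)) with h | h
  · have h1 : pr G n x ∈ M.map (pr G n) := ⟨x, hx, rfl⟩
    rw [h, Subgroup.mem_bot] at h1
    exact congrArg Subtype.val h1
  · exfalso
    have h2 : Nat.card (alternatingGroup (Fin n)) ∣ Nat.card G ^ n := by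
      rw [← hc]
      have h1 : Nat.card (M.map (pr G n)) ∣ Nat.card M := Subgroup.card_map_dvd _ _
      rwa [h, Subgroup.card_top] at h1
    obtain ⟨p, hp, hp1, hp2⟩ := Nat.exists_prime_lt_and_le_two_mul (Nat.card G + 2) (by omega)
    have h3 : p ∣ Nat.card (alternatingGroup (Fin n)) := by
      have h4 : p ∣ 2 * Nat.card (alternatingGroup (Fin n)) := by
        rw [two_mul_nat_card_alternatingGroup, Nat.card_perm, Nat.card_eq_fintype_card,
          Fintype.card_fin]
        exact (Nat.Prime.dvd_factorial hp).2 (hp2.trans (by omega))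
      rcases (Nat.Prime.dvd_mul hp).1 h4 with h | h
      · have := Nat.le_of_dvd (by norm_num) h
        omega
      · exact h
    have h6 := hp.dvd_of_dvd_pow (h3.trans h2)
    have := Nat.le_of_dvd Nat.card_pos h6
    omega

theorem card_base' [Finite G] : Nat.card (pr G n).ker = Nat.card G ^ n := by
  have h1 : Nat.card (pr G n).ker = Nat.card (Fin n → G) := by
    refine Nat.card_congr ⟨fun x => x.1.1.left,
      fun f => ⟨⟨⟨f, 1⟩, by
        change Equiv.Perm.sign (1 : Equiv.Perm (Fin n)) = 1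
        exact map_one _⟩, rfl⟩, fun x => ?_, fun f => rfl⟩
    apply Subtype.ext
    refine aw_ext (fun i => rfl) ?_
    exact ((mem_ker_pr x.1).1 x.2).symm
  rw [h1, Nat.card_fun, Nat.card_eq_fintype_card (α := Fin n), Fintype.card_fin]

theorem base_map' [Finite G] (hn : 2 * (Nat.card G + 4) ≤ n) (a : MulAut (AWr G n))
    (x : AWr G n) (hx : x.1.right = 1) : (a x).1.right = 1 := by
  have hinj : Function.Injective (a : AWr G n →* AWr G n) := a.injective
  refine base_le' hn ((pr G n).ker.map (a : AWr G n →* AWr G n))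
    ((MonoidHom.normal_ker _).map _ a.surjective) ?_ (a x) ⟨x, (mem_ker_pr x).2 hx, rfl⟩
  rw [← card_base' (G := G) (n := n)]
  exact (Nat.card_congr (Subgroup.equivMapOfInjective _ _ hinj).toEquiv).symm

theorem base_iff' [Finite G] (hn : 2 * (Nat.card G + 4) ≤ n) (a : MulAut (AWr G n))
    (x : AWr G n) : (a x).1.right = 1 ↔ x.1.right = 1 := by
  refine ⟨fun h => ?_, base_map' hn a x⟩
  have h1 := base_map' hn a⁻¹ (a x) h
  rwa [MulAut.inv_apply_self] at h1

theorem sg_comm {i j : Fin n} (hij : j ≠ i) (g h : G) :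
    (sg i g : AWr G n) * sg j h = sg j h * sg i g := Subtype.ext (sgl_comm hij g h)

theorem bml (x y : AWr G n) (hx : x.1.right = 1) (i : Fin n) :
    (x * y).1.left i = x.1.left i * y.1.left i := base_mul_left x.1 y.1 hx i

theorem evn_comm (i : Fin n) (g : G) (σ : Equiv.Perm (Fin n)) (h : Equiv.Perm.sign σ = 1)
    (hσ : σ i = i) : (evn σ h : AWr G n) * sg i g = sg i g * evn σ h :=
  Subtype.ext (inr_comm i g σ hσ)

/-! ### The action on the points -/

/-- the section -/
def evH (G : Type) [Group G] (n : ℕ) : alternatingGroup (Fin n) →* AWr G n :=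
  MonoidHom.mk' (fun σ => evn σ.1 σ.2) (fun σ τ => Subtype.ext
    (map_mul (SemidirectProduct.inr : Equiv.Perm (Fin n) →* Wr G n) σ.1 τ.1))

theorem exists_pi [Finite G] (hn : 2 * (Nat.card G + 4) ≤ n) (a : MulAut (AWr G n)) :
    ∃ π : Equiv.Perm (Fin n), ∀ z : AWr G n, (a z).1.right = π * z.1.right * π⁻¹ := by
  classical
  let β₀ : alternatingGroup (Fin n) →* alternatingGroup (Fin n) :=
    (pr G n).comp (a.toMonoidHom.comp (evH G n))
  have hinj : Function.Injective β₀ := by
    rw [injective_iff_map_eq_one]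
    intro σ hσ
    have h1 : (a (evH G n σ)).1.right = 1 := congrArg Subtype.val hσ
    rw [base_iff' hn] at h1
    exact Subtype.ext h1
  let β : MulAut (alternatingGroup (Fin n)) :=
    MulEquiv.ofBijective β₀ (Finite.injective_iff_bijective.1 hinj)
  obtain ⟨π, hπ⟩ := Pool.Agent.H302R6.aut_alt (α := Fin n)
    (by rw [Fintype.card_fin]; omega) β
  refine ⟨π, fun z => ?_⟩
  have h1 : (z * (evn z.1.right z.2)⁻¹).1.right = 1 := by
    change z.1.right * (z.1.right)⁻¹ = 1
    exact mul_inv_cancel _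
  have h2 := base_map' hn a _ h1
  rw [map_mul, map_inv] at h2
  change (a z).1.right * ((a (evn z.1.right z.2)).1.right)⁻¹ = 1 at h2
  rw [mul_inv_eq_one.1 h2]
  exact hπ ⟨z.1.right, z.2⟩

theorem ias (π : Equiv.Perm (Fin n)) (i : Fin n) : π⁻¹ (π i) = i := by simp

theorem pi_unique (hn : 4 ≤ n) (π π' : Equiv.Perm (Fin n))
    (h : ∀ σ : Equiv.Perm (Fin n), Equiv.Perm.sign σ = 1 → π * σ * π⁻¹ = π' * σ * π'⁻¹) :
    π = π' := by
  classical
  apply Equiv.ext
  intro i
  by_contra hne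
  set j := π'⁻¹ (π i) with hj
  have hij : j ≠ i := by
    intro h1
    apply hne
    have h2 : π' j = π i := by rw [hj]; simp
    rw [h1] at h2
    exact h2.symm
  obtain ⟨k, hk1, hk2, -⟩ := exists_new hn i j j
  obtain ⟨l, hl1, hl2, hl3⟩ := exists_new hn i j k
  have h1 := congrArg (fun τ : Equiv.Perm (Fin n) => τ (π i))
    (h (Equiv.swap j k * Equiv.swap j l) (by
      rw [map_mul, Equiv.Perm.sign_swap (Ne.symm hk2), Equiv.Perm.sign_swap (Ne.symm hl2)]
      rfl))
  simp only [Equiv.Perm.mul_apply, ias] at h1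
  rw [← hj, Equiv.swap_apply_of_ne_of_ne (Ne.symm hij) (Ne.symm hl1),
    Equiv.swap_apply_of_ne_of_ne (Ne.symm hij) (Ne.symm hk1), Equiv.swap_apply_left,
    Equiv.swap_apply_of_ne_of_ne hl2 hl3] at h1
  apply hl2
  rw [hj, h1, ias]

/-! ### Conjugations in `G ≀ A_n` -/

theorem base_conj (v : AWr G n) (hv : v.1.right = 1) (j : Fin n) (g : G) :
    v * sg j g = sg j (v.1.left j * g * (v.1.left j)⁻¹) * v := by
  refine aw_ext (fun l => ?_) ?_
  · rw [bml _ _ hv, bml _ _ (sg_right _ _)]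
    change v.1.left l * (sgl j g).left l = (sgl j _).left l * v.1.left l
    by_cases hl : l = j
    · subst hl
      rw [sgl_left_self, sgl_left_self]
      group
    · rw [sgl_left_ne hl, sgl_left_ne hl, one_mul, mul_one]
  · change v.1.right * 1 = 1 * v.1.right
    rw [one_mul, mul_one]

theorem evn_conj (σ : Equiv.Perm (Fin n)) (hσ : Equiv.Perm.sign σ = 1) (j : Fin n) (g : G) :
    (evn σ hσ : AWr G n) * sg j g = sg (σ j) g * evn σ hσ := by
  refine aw_ext (fun l => ?_) ?_
  · change 1 * (sgl j g).left (σ⁻¹ l) = (sgl (σ j) g).left l * 1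
    rw [one_mul, mul_one, sgl_left, sgl_left]
    have : σ⁻¹ l = j ↔ l = σ j := Equiv.Perm.inv_eq_iff_eq
    by_cases h : σ⁻¹ l = j
    · rw [if_pos h, if_pos (this.1 h)]
    · rw [if_neg h, if_neg (fun h1 => h (this.2 h1))]
  · change σ * 1 = 1 * σ
    rw [one_mul, mul_one]

theorem comm_left (v : AWr G n) (hv : v.1.right = 1) (j : Fin n) (hj : v.1.left j = 1) (g : G) :
    v * sg j g = sg j g * v := by
  rw [base_conj v hv, hj]
  congr 2
  group

/-! ### The stabilizers -/

section hh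

variable (a : MulAut (AWr G n)) (π : Equiv.Perm (Fin n))
  (hπ : ∀ z : AWr G n, (a z).1.right = π * z.1.right * π⁻¹) (i : Fin n)

/-- the component -/
def hc (z : AWr G n) : G := (a z).1.left (π i)

include hπ in
theorem hc_mul (z w : AWr G n) (hz : z.1.right i = i) :
    hc a π i (z * w) = hc a π i z * hc a π i w := by
  unfold hc
  rw [map_mul]
  change (a z).1.left (π i) * (a w).1.left ((a z).1.right⁻¹ (π i)) = _
  have h1 : (a z).1.right⁻¹ (π i) = π i := by
    rw [Equiv.Perm.inv_eq_iff_eq, hπ]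
    simp only [Equiv.Perm.mul_apply, ias]
    rw [hz]
  rw [h1]

theorem hc_one : hc a π i 1 = 1 := by
  unfold hc
  rw [map_one]
  rfl

theorem hc_onto [Finite G] (hn : 2 * (Nat.card G + 4) ≤ n) (g : G) :
    ∃ v : AWr G n, v.1.right = 1 ∧ hc a π i v = g := by
  refine ⟨a⁻¹ (sg (π i) g), base_map' hn a⁻¹ _ rfl, ?_⟩
  unfold hc
  rw [MulAut.apply_inv_self]
  exact sgl_left_self _ _

theorem r1 {z : AWr G n} (hz : z.1.right = 1) : z.1.right i = i := by
  rw [hz]
  rfl

include hπ in
theorem b4 [Finite G] (hn : 2 * (Nat.card G + 4) ≤ n) (j j' : Fin n) (hj : j ≠ i) (hj' : j' ≠ i)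
    (hjj : j ≠ j') (g : G) : ∃ g', hc a π i (sg j' g) = hc a π i (sg j g') := by
  classical
  obtain ⟨m, hm1, hm2, hm3⟩ := exists_new (by omega) i j j'
  have hs : Equiv.Perm.sign (Equiv.swap j j' * Equiv.swap j' m) = 1 := by
    rw [map_mul, Equiv.Perm.sign_swap hjj, Equiv.Perm.sign_swap (Ne.symm hm3)]
    rfl
  have hσi : (Equiv.swap j j' * Equiv.swap j' m) i = i := by
    rw [Equiv.Perm.mul_apply, Equiv.swap_apply_of_ne_of_ne (Ne.symm hj') (Ne.symm hm1),
      Equiv.swap_apply_of_ne_of_ne (Ne.symm hj) (Ne.symm hj')]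
  have hσj : (Equiv.swap j j' * Equiv.swap j' m) j = j' := by
    rw [Equiv.Perm.mul_apply, Equiv.swap_apply_of_ne_of_ne hjj (Ne.symm hm2),
      Equiv.swap_apply_left]
  have h1 := congrArg (hc a π i) (evn_conj (G := G) _ hs j g)
  rw [hσj, hc_mul a π hπ i (evn _ hs) _ hσi, hc_mul a π hπ i (sg j' g) _ rfl] at h1
  obtain ⟨v, hv, hv2⟩ := hc_onto a π i hn (hc a π i (evn _ hs))
  have h2 := congrArg (hc a π i) (base_conj v hv j g)
  rw [hc_mul a π hπ i v _ (r1 i hv), hc_mul a π hπ i (sg j _) _ rfl, hv2] at h2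
  exact ⟨_, mul_right_cancel (h1.symm.trans h2)⟩

include hπ in
theorem b5 [Finite G] (hn : 2 * (Nat.card G + 4) ≤ n) (j : Fin n) (hj : j ≠ i) (g u : G) :
    hc a π i (sg j g) * u = u * hc a π i (sg j g) := by
  obtain ⟨v, hv, rfl⟩ := hc_onto a π i hn u
  obtain ⟨j', hj1, hj2, -⟩ := exists_new (by omega) i j j
  obtain ⟨g', hg'⟩ := b4 a π hπ i hn j' j hj1 hj hj2 g
  set v' : AWr G n := v * sg j (v.1.left j)⁻¹ with hv'
  have e0 : v' * sg j (v.1.left j) = v := by
    rw [hv', mul_assoc, ← sg_mul, inv_mul_cancel, sg_one, mul_one]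
  have e1 : v'.1.right = 1 := by
    change v.1.right * 1 = 1
    rw [hv, one_mul]
  have e2 : v'.1.left j = 1 := by
    rw [hv', bml _ _ hv]
    change v.1.left j * (sgl j (v.1.left j)⁻¹).left j = 1
    rw [sgl_left_self, mul_inv_cancel]
  have c1 := congrArg (hc a π i) (comm_left v' e1 j e2 g)
  rw [hc_mul a π hπ i v' _ (r1 i e1), hc_mul a π hπ i (sg j g) _ rfl] at c1
  have c2 := congrArg (hc a π i) (sg_comm (Ne.symm hj2) g' (v.1.left j))
  rw [hc_mul a π hπ i (sg j' g') _ rfl, hc_mul a π hπ i (sg j _) _ rfl, ← hg'] at c2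
  have c3 := congrArg (hc a π i) e0
  rw [hc_mul a π hπ i v' _ (r1 i e1)] at c3
  rw [← c3, ← mul_assoc, ← c1, mul_assoc, c2, mul_assoc]

include hπ in
theorem b6 [Finite G] (hG : NC G) (hn : 2 * (Nat.card G + 4) ≤ n) (j : Fin n) (hj : j ≠ i)
    (g : G) : hc a π i (sg j g) = 1 :=
  hG (MonoidHom.mk' (fun g => hc a π i (sg j g)) (fun g h => by
    rw [sg_mul, hc_mul a π hπ i (sg j g) _ rfl])) (fun g u => b5 a π hπ i hn j hj g u) g

include hπ in
theorem b7 [Finite G] (hG : NC G) (hn : 2 * (Nat.card G + 4) ≤ n) (T : Finset (Fin n)) :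
    i ∉ T → ∀ v : AWr G n, v.1.right = 1 → (∀ l, l ∉ T → v.1.left l = 1) → hc a π i v = 1 := by
  classical
  induction T using Finset.induction_on with
  | empty =>
    intro _ v hv h1
    have : v = 1 := aw_ext (fun l => h1 l (Finset.notMem_empty l)) hv
    rw [this, hc_one]
  | insert j T hjT ih =>
    intro hi v hv h1
    rw [Finset.mem_insert, not_or] at hi
    have e1 : (v * sg j (v.1.left j)⁻¹).1.right = 1 := by
      change v.1.right * 1 = 1
      rw [hv, one_mul]
    have h2 := ih hi.2 (v * sg j (v.1.left j)⁻¹) e1 (fun l hl => by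
      rw [bml _ _ hv]
      change v.1.left l * (sgl j (v.1.left j)⁻¹).left l = 1
      by_cases hlj : l = j
      · rw [hlj, sgl_left_self, mul_inv_cancel]
      · rw [sgl_left_ne hlj, mul_one]
        exact h1 l (by rw [Finset.mem_insert, not_or]; exact ⟨hlj, hl⟩))
    rwa [hc_mul a π hπ i v _ (r1 i hv), b6 a π hπ i hG hn j (Ne.symm hi.1), mul_one] at h2

include hπ in
theorem b7' [Finite G] (hG : NC G) (hn : 2 * (Nat.card G + 4) ≤ n) (v : AWr G n)
    (hv : v.1.right = 1) (h : v.1.left i = 1) : hc a π i v = 1 := by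
  classical
  refine b7 a π hπ i hG hn (Finset.univ.erase i) (Finset.notMem_erase _ _) v hv fun l hl => ?_
  have : l = i := by
    by_contra hne
    exact hl (Finset.mem_erase.2 ⟨hne, Finset.mem_univ _⟩)
  rw [this, h]

include hπ in
theorem b8 [Finite G] (hG : NC G) (hn : 2 * (Nat.card G + 4) ≤ n) (u : G) :
    ∃ g, hc a π i (sg i g) = u := by
  obtain ⟨v, hv, rfl⟩ := hc_onto a π i hn u
  refine ⟨v.1.left i, ?_⟩
  have e0 : sg i (v.1.left i) * (sg i (v.1.left i)⁻¹ * v) = v := by
    rw [← mul_assoc, ← sg_mul, mul_inv_cancel, sg_one, one_mul]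
  have c := congrArg (hc a π i) e0
  rw [hc_mul a π hπ i (sg i _) _ rfl, b7' a π hπ i hG hn (sg i (v.1.left i)⁻¹ * v) (by
    change 1 * v.1.right = 1
    rw [hv, one_mul]) (by
    rw [bml _ _ (sg_right _ _)]
    change (sgl i (v.1.left i)⁻¹).left i * v.1.left i = 1
    rw [sgl_left_self, inv_mul_cancel]), mul_one] at c
  exact c

include hπ in
theorem b9 [Finite G] (hG : NC G) (hn : 2 * (Nat.card G + 4) ≤ n) (σ : Equiv.Perm (Fin n))
    (hσ : Equiv.Perm.sign σ = 1) (hi : σ i = i) (u : G) :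
    hc a π i (evn σ hσ) * u = u * hc a π i (evn σ hσ) := by
  obtain ⟨g, rfl⟩ := b8 a π hπ i hG hn u
  have h1 := congrArg (hc a π i) (evn_comm i g σ hσ hi)
  rwa [hc_mul a π hπ i (evn σ hσ) _ hi, hc_mul a π hπ i (sg i g) _ rfl] at h1

include hπ in
theorem b10 [Finite G] (hG : NC G) (hn : 2 * (Nat.card G + 4) ≤ n) (σ : Equiv.Perm (Fin n))
    (hσ : Equiv.Perm.sign σ = 1) (hi : σ i = i) : hc a π i (evn σ hσ) = 1 := by
  classical
  have hfix : ∀ τ : Equiv.Perm {x : Fin n // x ≠ i}, Equiv.Perm.ofSubtype τ i = i := fun τ =>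
    Equiv.Perm.ofSubtype_apply_of_not_mem τ (by simp)
  have hsg : ∀ τ : alternatingGroup {x : Fin n // x ≠ i},
      Equiv.Perm.sign (Equiv.Perm.ofSubtype τ.1) = 1 := by
    intro τ
    rw [Equiv.Perm.sign_ofSubtype]
    exact τ.2
  let φ : alternatingGroup {x : Fin n // x ≠ i} →* G := MonoidHom.mk'
    (fun τ => hc a π i (evn (Equiv.Perm.ofSubtype τ.1) (hsg τ))) (fun τ τ' => by
      rw [← hc_mul a π hπ i (evn _ (hsg τ)) _ (hfix τ.1)]
      congr 1
      apply Subtype.ext
      change (SemidirectProduct.inr (Equiv.Perm.ofSubtype (τ.1 * τ'.1)) : Wr G n) =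
        SemidirectProduct.inr (Equiv.Perm.ofSubtype τ.1) *
          SemidirectProduct.inr (Equiv.Perm.ofSubtype τ'.1)
      rw [← map_mul, map_mul])
  have hcard : 5 ≤ Nat.card {x : Fin n // x ≠ i} := by
    rw [Nat.card_eq_fintype_card]
    have : Fintype.card {x : Fin n // x ≠ i} = n - 1 := by
      rw [Fintype.card_subtype_compl, Fintype.card_fin, Fintype.card_subtype_eq]
    rw [this]
    omega
  have hker : φ.ker = ⊤ := by
    rw [eq_top_iff, ← commutator_alternatingGroup_eq_top hcard, commutator_def,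
      Subgroup.commutator_le]
    intro g₁ _ g₂ _
    rw [MonoidHom.mem_ker, map_commutatorElement, commutatorElement_eq_one_iff_mul_comm]
    exact b9 a π hπ i hG hn _ (hsg g₁) (hfix g₁.1) _
  have hp : ∀ x, σ x ≠ i ↔ x ≠ i := by
    intro x
    constructor
    · intro h1 h2
      apply h1
      rw [h2, hi]
    · intro h1 h2
      apply h1
      apply σ.injective
      rw [h2, hi]
  have hof : Equiv.Perm.ofSubtype (σ.subtypePerm (p := fun x => x ≠ i) hp) = σ :=
    Equiv.Perm.ofSubtype_subtypePerm hp (fun x hx h => hx (by rw [h, hi]))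
  have hs' : Equiv.Perm.sign (σ.subtypePerm (p := fun x => x ≠ i) hp) = 1 := by
    rw [← Equiv.Perm.sign_ofSubtype, hof, hσ]
  have h1 : φ ⟨σ.subtypePerm (p := fun x => x ≠ i) hp, hs'⟩ = 1 := by
    rw [← MonoidHom.mem_ker, hker]
    exact Subgroup.mem_top _
  have h2 : (evn σ hσ : AWr G n) = evn (Equiv.Perm.ofSubtype
      (σ.subtypePerm (p := fun x => x ≠ i) hp)) (by rw [hof]; exact hσ) := by
    apply Subtype.ext
    change (SemidirectProduct.inr σ : Wr G n) = SemidirectProduct.inr _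
    rw [hof]
  rw [h2]
  exact h1

include hπ in
theorem b11 [Finite G] (hG : NC G) (hn : 2 * (Nat.card G + 4) ≤ n) (z : AWr G n)
    (hz : z.1.right i = i) (hz1 : z.1.left i = 1) : hc a π i z = 1 := by
  have hs : Equiv.Perm.sign z.1.right = 1 := z.2
  have e0 : (z * (evn z.1.right hs)⁻¹) * evn z.1.right hs = z := inv_mul_cancel_right _ _
  have e1 : (z * (evn z.1.right hs)⁻¹).1.right = 1 := by
    change z.1.right * (z.1.right)⁻¹ = 1
    exact mul_inv_cancel _
  have e2 : (z * (evn z.1.right hs)⁻¹).1.left i = 1 := by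
    have h0 : ((z * (evn z.1.right hs)⁻¹) * evn z.1.right hs).1.left i = z.1.left i :=
      congrArg (fun w : AWr G n => w.1.left i) e0
    rw [bml _ _ e1, hz1] at h0
    have h3 : (evn z.1.right hs : AWr G n).1.left i = 1 := rfl
    rw [h3, mul_one] at h0
    exact h0
  have c := congrArg (hc a π i) e0
  rw [hc_mul a π hπ i (z * (evn z.1.right hs)⁻¹) _ (r1 i e1), b7' a π hπ i hG hn _ e1 e2,
    b10 a π hπ i hG hn _ hs hz, one_mul] at c
  exact c.symm

end hh

theorem exists_P [Finite G] (hG : NC G) (hn : 2 * (Nat.card G + 4) ≤ n) :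
    ∃ P : MulAut (AWr G n) →* Equiv.Perm (Fin n),
      (∀ (a : MulAut (AWr G n)) (z : AWr G n), (a z).1.right = P a * z.1.right * (P a)⁻¹) ∧
      (∀ w : AWr G n, P (MulAut.conj w) = w.1.right) ∧
      (∀ (a : MulAut (AWr G n)) (i : Fin n) (z : AWr G n), z.1.right i = i → z.1.left i = 1 →
        (a z).1.left (P a i) = 1) := by
  classical
  choose P₀ hP₀ using exists_pi (G := G) (n := n) hn
  have h4 : 4 ≤ n := by omega
  let P : MulAut (AWr G n) →* Equiv.Perm (Fin n) := MonoidHom.mk' P₀ (fun a b => by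
    refine pi_unique h4 _ _ fun σ hσ => ?_
    have h1 := hP₀ (a * b) (evn σ hσ)
    rw [MulAut.mul_apply, hP₀, hP₀] at h1
    change P₀ a * (P₀ b * σ * (P₀ b)⁻¹) * (P₀ a)⁻¹ = P₀ (a * b) * σ * (P₀ (a * b))⁻¹ at h1
    rw [← h1]
    group)
  refine ⟨P, hP₀, fun w => ?_, fun a i z hz hz1 => ?_⟩
  · refine pi_unique h4 _ _ fun σ hσ => ?_
    exact (hP₀ (MulAut.conj w) (evn σ hσ)).symm
  · exact b11 a (P₀ a) (hP₀ a) i hG hn z hz hz1

end gt

end Pool.Agent.N344.ET
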